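import Pool.Agent.X171.EL.Stm

/-! Permutations of the coordinates preserve the product measure. -/

open MeasureTheory Set

namespace Pool.Agent.X330.EL

open Pool.Agent.X171.EL

theorem pm_meas (π : Equiv.Perm ℕ) : Measurable (pm π) :=
  measurable_pi_lambda _ (fun i => measurable_pi_apply (π i))

theorem t_MP : S_MP := by
  intro π
  refine ⟨pm_meas π, ?_⟩
  unfold Pr
  apply Measure.eq_infinitePi
  intro s t ht
  have key : ∀ j, (t (π.symm (π j)) : Set Bool) = t j := fun j =>
    congrArg (fun i => (t i : Set Bool)) (π.symm_apply_apply j)
  rw [Measure.map_apply (pm_meas π) (MeasurableSet.pi s.countable_toSet (fun i _ => ht i))]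
  have : pm π ⁻¹' (Set.pi s t) = Set.pi (s.map π.toEmbedding) (fun j => t (π.symm j)) := by
    ext ω
    simp only [mem_preimage, Set.mem_pi, pm, Finset.coe_map, Equiv.coe_toEmbedding, Set.mem_image,
      forall_exists_index, and_imp, forall_apply_eq_imp_iff₂]
    constructor
    · intro h a ha
      rw [key]
      exact h a ha
    · intro h a ha
      have := h a ha
      rwa [key] at this
  rw [this, Measure.infinitePi_pi _ (fun i _ => ht _), Finset.prod_map]
  apply Finset.prod_congr rfl
  intro i _
  exact congrArg coin (key i)

end Pool.Agent.X330.EL
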